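import Mathlib

namespace Pool.Agent.Results.MP_685115_al.Dihedral

open CoxeterSystem

/-- The Artin-Tits group of a Coxeter matrix. -/
abbrev Artin {B : Type} (M : CoxeterMatrix B) : Type :=
  PresentedGroup {r : FreeGroup B | ∃ i j : B,
    r = ((braidWord M i j).map FreeGroup.of).prod * (((braidWord M j i).map FreeGroup.of).prod)⁻¹}

/-- The Coxeter graph. -/
def graph {B : Type} (M : CoxeterMatrix B) : SimpleGraph B :=
  SimpleGraph.fromRel fun i j => M i j ≠ 2

/-- Proper irreducible parabolic subgroups. -/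
def IsVertex {B : Type} (M : CoxeterMatrix B) (P : Subgroup (Artin M)) : Prop :=
  P ≠ ⊤ ∧ ∃ (X : Set B) (g : Artin M), ((graph M).induce X).Connected ∧
    P = (Subgroup.closure (PresentedGroup.of '' X)).map (MulAut.conj g).toMonoidHom

/-- The orbit of P under conjugation by the powers of a. -/
def orbit {G : Type} [Group G] (a : G) (P : Subgroup G) : Set (Subgroup G) :=
  Set.range fun k : ℤ => P.map (MulAut.conj (a ^ k)⁻¹).toMonoidHom

theorem prod_alt {G B : Type} [Group G] (f : B → G) (i j : B) (q : ℕ) :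
    ((alternatingWord i j (2 * q)).map f).prod = (f i * f j) ^ q := by
  induction q with
  | zero => simp [alternatingWord]
  | succ q ih =>
    rw [show 2 * (q + 1) = 2 * q + 1 + 1 by ring, alternatingWord_succ, alternatingWord_succ]
    simp [ih, pow_succ]

theorem finite_cox (m : ℕ) : Finite (CoxeterMatrix.I m).Group := by
  let cs := (CoxeterMatrix.I m).toCoxeterSystem
  set a := cs.simple 0
  set b := cs.simple 1
  have hc : IsOfFinOrder (a * b) := by
    refine isOfFinOrder_iff_pow_eq_one.2 ⟨m + 2, by omega, ?_⟩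
    exact cs.simple_mul_simple_pow 0 1
  have haa : a * a = 1 := cs.simple_mul_simple_self 0
  have hbb : b * b = 1 := cs.simple_mul_simple_self 1
  have hs : SemiconjBy a (a * b) (a * b)⁻¹ := by
    unfold SemiconjBy
    rw [mul_inv_rev, cs.inv_simple, cs.inv_simple, ← mul_assoc, haa, mul_assoc, haa]; simp [b]
  have hb : b = (a * b)⁻¹ * a := by
    rw [mul_inv_rev, cs.inv_simple, cs.inv_simple, mul_assoc, haa, mul_one]
  have hfin : (Subgroup.zpowers (a * b) : Set (CoxeterMatrix.I m).Group).Finite :=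
    finite_zpowers.2 hc
  have hall : ∀ w : (CoxeterMatrix.I m).Group,
      (∃ k : ℤ, w = (a * b) ^ k) ∨ ∃ k : ℤ, w = (a * b) ^ k * a := by
    have ha : ∀ w : (CoxeterMatrix.I m).Group,
        ((∃ k : ℤ, w = (a * b) ^ k) ∨ ∃ k : ℤ, w = (a * b) ^ k * a) →
        ((∃ k : ℤ, a * w = (a * b) ^ k) ∨ ∃ k : ℤ, a * w = (a * b) ^ k * a) := by
      rintro w (⟨k, rfl⟩ | ⟨k, rfl⟩)
      · exact Or.inr ⟨-k, by rw [(hs.zpow_right k).eq, inv_zpow']⟩
      · exact Or.inl ⟨-k, by rw [← mul_assoc, (hs.zpow_right k).eq, inv_zpow', mul_assoc _ a a, haa,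
          mul_one]⟩
    intro w
    induction w using cs.simple_induction_left with
    | one => exact Or.inl ⟨0, by simp⟩
    | mul_simple_left w i ih =>
      fin_cases i
      · exact ha w ih
      · change (∃ k : ℤ, b * w = _) ∨ ∃ k : ℤ, b * w = _
        rcases ha w ih with ⟨k, hk⟩ | ⟨k, hk⟩
        · refine Or.inl ⟨-1 + k, ?_⟩
          rw [zpow_add, zpow_neg_one, ← hk, ← mul_assoc, ← hb]
        · refine Or.inr ⟨-1 + k, ?_⟩
          rw [zpow_add, zpow_neg_one, mul_assoc, ← hk, ← mul_assoc, ← hb]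
  rw [← Set.finite_univ_iff]
  refine (hfin.union (hfin.image (· * a))).subset fun w _ => ?_
  rcases hall w with ⟨k, rfl⟩ | ⟨k, rfl⟩
  · exact Or.inl ⟨k, rfl⟩
  · exact Or.inr ⟨_, ⟨k, rfl⟩, rfl⟩

open DihedralGroup in
def φ (q : ℕ) : Artin (CoxeterMatrix.I (2 * q)) →* DihedralGroup (2 * (q + 1)) :=
  PresentedGroup.toGroup (f := fun i : Fin 2 => sr ((i : ℕ) : ZMod (2 * (q + 1)))) (by
    rintro r ⟨i, j, rfl⟩
    have h0 : ((q + 1 : ℕ) : ZMod (2 * (q + 1))) = -((q + 1 : ℕ) : ZMod (2 * (q + 1))) := by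
      rw [eq_neg_iff_add_eq_zero, ← Nat.cast_add, ← two_mul, ZMod.natCast_self]
    rw [map_mul, map_inv, mul_inv_eq_one, map_list_prod, map_list_prod, List.map_map, List.map_map]
    by_cases hij : i = j
    · subst hij; rfl
    have e1 : (CoxeterMatrix.I (2 * q)) i j = 2 * (q + 1) := by
      simp [CoxeterMatrix.I, hij]; ring
    have e2 : (CoxeterMatrix.I (2 * q)) j i = 2 * (q + 1) := by
      simp [CoxeterMatrix.I, Ne.symm hij]; ring
    rw [braidWord, braidWord, e1, e2, prod_alt, prod_alt]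
    simp only [Function.comp, FreeGroup.lift_apply_of, sr_mul_sr, r_pow]
    fin_cases i <;> fin_cases j <;> simp at hij ⊢
    · simpa using h0
    · simpa using h0.symm)

theorem result : ¬ ∃ N : ℕ, ∀ M : CoxeterMatrix (Fin 2), Finite M.Group →
    ∀ (a : Artin M) (P : Subgroup (Artin M)), IsVertex M P → (orbit a P).Finite →
      (orbit a P).ncard ≤ N := by
  rintro ⟨q, hq⟩
  set M := CoxeterMatrix.I (2 * q) with hM
  let a : Artin M := PresentedGroup.of 0
  let b : Artin M := PresentedGroup.of 1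
  have hφa : φ q a = DihedralGroup.sr 0 := by simp [a, φ]
  have hφb : φ q b = DihedralGroup.sr 1 := by simp [b, φ]
  have hrel : (a * b) ^ (q + 1) = (b * a) ^ (q + 1) := by
    have h := PresentedGroup.one_of_mem (rels := {r : FreeGroup (Fin 2) | ∃ i j : Fin 2,
      r = ((braidWord M i j).map FreeGroup.of).prod *
        (((braidWord M j i).map FreeGroup.of).prod)⁻¹}) ⟨0, 1, rfl⟩
    have e1 : M 0 1 = 2 * (q + 1) := by simp [hM, CoxeterMatrix.I]; ring
    have e2 : M 1 0 = 2 * (q + 1) := by simp [hM, CoxeterMatrix.I]; ring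
    rw [braidWord, braidWord, e1, e2, prod_alt, prod_alt, map_mul, map_inv, mul_inv_eq_one,
      map_pow, map_pow, map_mul, map_mul] at h
    exact h
  have hcomm : Commute a ((a * b) ^ (q + 1)) := by
    have : SemiconjBy a (b * a) (a * b) := by unfold SemiconjBy; rw [mul_assoc]
    have h2 := (this.pow_right (q + 1)).eq
    rw [← hrel] at h2; exact h2
  have hmap : ∀ k : ℤ, (Subgroup.zpowers a).map (MulAut.conj ((a * b) ^ k)⁻¹).toMonoidHom =
      Subgroup.zpowers (((a * b) ^ k)⁻¹ * a * (a * b) ^ k) := by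
    intro k; rw [MonoidHom.map_zpowers, MulEquiv.coe_toMonoidHom, MulAut.conj_apply, inv_inv]
  have hφk : ∀ k : ℤ, φ q (((a * b) ^ k)⁻¹ * a * (a * b) ^ k) =
      DihedralGroup.sr ((2 * k : ℤ) : ZMod (2 * (q + 1))) := by
    intro k
    simp only [map_mul, map_inv, map_zpow, hφa, hφb, DihedralGroup.sr_mul_sr, DihedralGroup.r_zpow,
      DihedralGroup.inv_r, DihedralGroup.r_mul_sr, DihedralGroup.sr_mul_r]
    congr 1; push_cast; ring
  have hz : ∀ x y : ZMod (2 * (q + 1)), DihedralGroup.sr x ∈ Subgroup.zpowers (DihedralGroup.sr y) →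
      x = y := by
    rintro x y ⟨k, hk⟩
    rcases Int.even_or_odd' k with ⟨l, rfl | rfl⟩
    · simp only [zpow_mul, zpow_two, DihedralGroup.sr_mul_self, one_zpow] at hk
      rw [DihedralGroup.one_def] at hk; cases hk
    · simp only [zpow_add, zpow_mul, zpow_two, DihedralGroup.sr_mul_self, one_zpow, one_mul,
        zpow_one] at hk
      exact (DihedralGroup.sr.inj hk).symm
  have hv : IsVertex M (Subgroup.zpowers a) := by
    refine ⟨fun h => ?_, {0}, 1, ?_, ?_⟩
    · have hb : b ∈ Subgroup.zpowers a := h ▸ Subgroup.mem_top b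
      have h2 := Subgroup.mem_map_of_mem (φ q) hb
      rw [MonoidHom.map_zpowers, hφa, hφb] at h2
      have h3 := hz _ _ h2
      have : Fact (1 < 2 * (q + 1)) := ⟨by omega⟩
      exact one_ne_zero h3
    · exact SimpleGraph.Connected.of_subsingleton
    · rw [Set.image_singleton, ← Subgroup.zpowers_eq_closure, MonoidHom.map_zpowers]; simp [a]
  let F : ℕ → Subgroup (Artin M) := fun k => Subgroup.zpowers (((a * b) ^ (k : ℤ))⁻¹ * a * (a * b) ^ (k : ℤ))
  have horb : orbit (a * b) (Subgroup.zpowers a) = F '' (Finset.range (q + 1) : Set ℕ) := by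
    ext P; constructor
    · rintro ⟨k, rfl⟩
      have hpos : (0 : ℤ) < (q + 1 : ℕ) := by positivity
      refine ⟨(k % (q + 1 : ℕ)).toNat, ?_, ?_⟩
      · have := Int.emod_lt_of_pos k hpos
        have := Int.emod_nonneg k hpos.ne'
        simp only [Finset.coe_range, Set.mem_Iio]; omega
      · simp only [F, hmap]
        rw [Int.toNat_of_nonneg (Int.emod_nonneg k hpos.ne')]
        congr 1
        have hk : (a * b) ^ k = ((a * b) ^ (q + 1)) ^ (k / (q + 1 : ℕ)) * (a * b) ^ (k % (q + 1 : ℕ)) := by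
          rw [← zpow_natCast, ← zpow_mul, ← zpow_add, Int.mul_ediv_add_emod]
        have hc := (hcomm.zpow_right (k / (q + 1 : ℕ))).eq
        rw [hk, mul_inv_rev]
        generalize ((a * b) ^ (q + 1)) ^ (k / (q + 1 : ℕ)) = D at *
        generalize (a * b) ^ (k % (q + 1 : ℕ)) = E at *
        calc E⁻¹ * a * E = E⁻¹ * D⁻¹ * (D * a) * E := by group
          _ = _ := by rw [← hc]; group
    · rintro ⟨k, -, rfl⟩; exact ⟨k, hmap k⟩
  have hinj : Set.InjOn F (Finset.range (q + 1) : Set ℕ) := by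
    intro k hk l hl h
    have h1 := congrArg (Subgroup.map (φ q)) h
    simp only [F, MonoidHom.map_zpowers, hφk] at h1
    have h2 := hz _ _ (h1 ▸ Subgroup.mem_zpowers _)
    simp only [Finset.coe_range, Set.mem_Iio] at hk hl
    rw [ZMod.intCast_eq_intCast_iff'] at h2
    rw [Int.emod_eq_of_lt (by omega) (by omega), Int.emod_eq_of_lt (by omega) (by omega)] at h2
    omega
  have := hq M (finite_cox _) (a * b) _ hv (horb ▸ (Finset.finite_toSet _).image F)
  rw [horb, hinj.ncard_image, Set.ncard_coe_finset, Finset.card_range] at this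
  omega

end Pool.Agent.Results.MP_685115_al.Dihedral
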